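import Pool.Agent.Helper88.RR.Goals
import Pool.Agent.Helper61.PP.S1

/-!
# MP_69be96_nt, project RR, packet S1: the mean square of the weight
-/

set_option autoImplicit false

open Finset Filter Topology

open scoped Classical

namespace Pool.Agent.Helper85.RR

open Pool.Agent.Helper88.RR
open Pool.Agent.Helper88.PP (pr Rg om Sf SS uu vv ee LA VV QQ NN XX cost nc dd)
open Pool.Agent.Helper61.PP (VV_nonneg XX_nonneg ee_LA)

theorem ab_nonneg (m q z r : ℕ) : 0 ≤ ab m q z r := by
  unfold ab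
  have := VV_nonneg z m (q * m)
  positivity

theorem gg_nonneg {y z k : ℕ} (hk : k ≤ y) : 0 ≤ gg y z k := by
  unfold gg
  refine Finset.prod_nonneg fun p hp => ?_
  have h1 : y < p := (Finset.mem_Ioc.1 (Finset.mem_filter.1 hp).1).1
  have h2 : (0 : ℝ) < p := by exact_mod_cast (Nat.zero_le y).trans_lt h1
  have h3 : (k : ℝ) / p ≤ 1 := by
    rw [div_le_one h2]
    exact_mod_cast (hk.trans h1.le)
  linarith

theorem gg_zero (y z : ℕ) : gg y z 0 = 1 := by
  unfold gg
  simp

theorem nz_le {P : Finset ℕ} (r : P → ℕ) : nz r ≤ P.card := by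
  unfold nz
  refine (Finset.card_filter_le _ _).trans ?_
  simp

theorem mem_TB {m q M z : ℕ} {P : Finset ℕ} {r : P → ℕ} (hr : r ∈ TB m q M z P) :
    (∀ i, r i = 0 ∨ r i ∈ LA z m (q * m)) ∧ cost z r ≤ M := by
  unfold TB at hr
  rw [Finset.mem_filter, Fintype.mem_piFinset] at hr
  exact ⟨fun i => by simpa [Finset.mem_insert] using hr.1 i, hr.2⟩

theorem card_TB {m q M z : ℕ} {P : Finset ℕ} (hm : 1 ≤ m) (hz : 2 ≤ z) {r : P → ℕ}
    (hr : r ∈ TB m q M z P) : nz r ≤ M / m := by
  obtain ⟨h1, h2⟩ := mem_TB hr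
  have h3 : nz r * m ≤ M := by
    refine le_trans ?_ h2
    unfold nz cost
    rw [← smul_eq_mul, ← Finset.sum_const]
    have h4 : ∑ i ∈ univ.filter (fun i => r i ≠ 0), m ≤
        ∑ i ∈ univ.filter (fun i => r i ≠ 0), (if r i = 0 then 0 else ee z (r i)) := by
      refine Finset.sum_le_sum fun i hi => ?_
      have hi' := (Finset.mem_filter.1 hi).2
      rw [if_neg hi']
      exact (Nat.le_succ m).trans (ee_LA hz ((h1 i).resolve_left hi'))
    refine h4.trans ?_
    exact Finset.sum_le_sum_of_subset (Finset.filter_subset _ _)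
  exact (Nat.le_div_iff_mul_le hm).2 h3

theorem prod_TB {m q M z : ℕ} {P : Finset ℕ} (hz : 2 ≤ z) {r : P → ℕ}
    (hr : r ∈ TB m q M z P) : ∏ i, max 1 (r i) ≤ z ^ M := by
  obtain ⟨h1, h2⟩ := mem_TB hr
  calc ∏ i, max 1 (r i) ≤ ∏ i, z ^ (if r i = 0 then 0 else ee z (r i)) := by
        refine Finset.prod_le_prod' fun i _ => ?_
        split_ifs with h
        · rw [h]; simp
        · refine max_le (Nat.one_le_pow _ _ (by omega)) ?_
          unfold ee
          exact (Nat.lt_pow_succ_log_self (by omega) _).le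
    _ = z ^ ∑ i, (if r i = 0 then 0 else ee z (r i)) := Finset.prod_pow_eq_pow_sum _ _ _
    _ ≤ z ^ M := Nat.pow_le_pow_right (by omega) h2

theorem WB_eq (m q M z y : ℕ) (P : Finset ℕ) (n : ℕ) : WB m q M z y P n =
    ∑ r ∈ TB m q M z P, (∏ i : P, (if r i = 0 then 1 else - ab m q z (r i))) *
      ∏ i : P, vv y z (r i) (n + (i : ℕ)) := by
  unfold WB
  refine Finset.sum_congr rfl fun r _ => ?_
  rw [Finset.prod_mul_distrib]

theorem DB_eq (m q M z y : ℕ) (P : Finset ℕ) : DB m q M z y P =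
    ∑ r ∈ TB m q M z P, (∏ i : P, (if r i = 0 then 1 else - ab m q z (r i))) ^ 2 *
      (gg y z (nz r) * ∏ i : P, (if r i = 0 then 1 else (Nat.totient (r i) : ℝ))) := by
  unfold DB wb
  refine Finset.sum_congr rfl fun r _ => ?_
  rw [mul_left_comm, ← Finset.prod_pow, ← Finset.prod_mul_distrib]
  congr 1
  refine Finset.prod_congr rfl fun i _ => ?_
  split_ifs <;> ring

theorem wb_nonneg {m q y z : ℕ} {P : Finset ℕ} (hP : P.card ≤ y) (r : P → ℕ) :
    0 ≤ wb m q y z r := by
  unfold wb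
  refine mul_nonneg (gg_nonneg ((nz_le r).trans hP)) (Finset.prod_nonneg fun i _ => ?_)
  split_ifs
  · exact zero_le_one
  · positivity

theorem one_le_DB (m q M z y : ℕ) {P : Finset ℕ} (hP : P.card ≤ y) : 1 ≤ DB m q M z y P := by
  unfold DB
  have h0 : (fun _ : P => 0) ∈ TB m q M z P := by
    unfold TB
    rw [Finset.mem_filter, Fintype.mem_piFinset]
    exact ⟨fun i => Finset.mem_insert_self _ _, by simp [cost]⟩
  have h1 : nz (fun _ : P => 0) = 0 := by
    unfold nz
    simp
  have h2 : wb m q y z (fun _ : P => 0) = 1 := by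
    unfold wb
    rw [h1, gg_zero]
    simp
  have h3 := Finset.single_le_sum (f := fun r : P → ℕ => wb m q y z r) (s := TB m q M z P)
    (fun r _ => wb_nonneg hP r) h0
  exact h2.ge.trans h3

/-- Packet `S1`. -/
theorem s1 (h : StmtTS) : StmtS1 := by
  obtain ⟨c, hc, E0, hE0⟩ := h
  refine ⟨c, hc, max E0 1, fun E z x y hE hsr b hb m q hm hqm hV hK P hP hPo => ?_⟩
  have hE1 : 1 ≤ E := le_of_max_le_right hE
  have hz2 : 2 ≤ z := by
    have h1 : (1 : ℝ) + 1 ≤ z := by
      have h2 : (1 : ℝ) ≤ E := by exact_mod_cast hE1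
      have h3 := Real.add_one_le_exp (E : ℝ)
      have h4 := hsr.1
      linarith
    have h5 : ((2 : ℕ) : ℝ) ≤ z := by
      push_cast
      linarith
    exact_mod_cast h5
  have hPy : P.card ≤ y := by
    refine (Finset.card_le_card hP).trans ?_
    simp
  refine ⟨one_le_DB m q (E / 16) z y hPy, ?_⟩
  have key := hE0 E z x y (le_of_max_le_left hE) hsr b hb m q (E / 16 / m + 1) hm hqm hV hK
    P hP hPo (TB m q (E / 16) z P)
    (fun r => ∏ i : P, (if r i = 0 then 1 else - ab m q z (r i))) ∅ (by simp)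
    (fun r hr i _ => (mem_TB hr).1 i) (fun r hr i hi => absurd hi (Finset.notMem_empty i))
    (fun r hr => (card_TB hm hz2 hr).trans (Nat.le_succ _))
    (fun r hr => (prod_TB hz2 hr).trans (Nat.pow_le_pow_right (by omega) (by omega)))
    (fun r hr => by
      rw [Finset.abs_prod]
      refine Finset.prod_le_prod (fun i _ => abs_nonneg _) fun i _ => ?_
      rw [if_neg (Finset.notMem_empty i)]
      split_ifs
      · rw [abs_one]
      · rw [abs_neg, abs_of_nonneg (ab_nonneg _ _ _ _)])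
  rw [DB_eq]
  simp only [WB_eq]
  refine key.trans ?_
  rw [Finset.card_empty, pow_zero, mul_one]

end Pool.Agent.Helper85.RR
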